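import Pool.Agent.helper35.FGN.Spec

/-!
# Row fgn:STR (MP_a2a22c_al): structure of the unipotents with one Jordan block of size three
-/

set_option autoImplicit false

namespace Pool.Agent.FGN

open Matrix Pool.Agent.H48SL Pool.Agent.UG

variable {n : ℕ}

/-- a nonzero integral vector is a multiple of a primitive one -/
theorem STR_prim {v : Fin n → ℤ} (hv : v ≠ 0) : ∃ (d : ℤ) (w x : Fin n → ℤ), d ≠ 0 ∧ v = d • w ∧ x ⬝ᵥ w = 1 := by
  classical
  obtain ⟨r, hr⟩ := Function.ne_iff.1 hv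
  obtain ⟨d, hd⟩ : ∃ d : ℤ, Ideal.span (Set.range v) = Ideal.span {d} :=
    (IsPrincipalIdealRing.principal (Ideal.span (Set.range v))).principal
  have hdv : ∀ i, d ∣ v i := fun i => by
    rw [← Ideal.mem_span_singleton, ← hd]
    exact Ideal.subset_span ⟨i, rfl⟩
  have hd0 : d ≠ 0 := by
    rintro rfl
    exact hr (by simpa using hdv r)
  choose w hw using hdv
  have hmem : d ∈ Ideal.span (Set.range v) := by rw [hd]; exact Ideal.mem_span_singleton_self d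
  obtain ⟨x, hx⟩ := (Ideal.mem_span_range_iff_exists_fun).1 hmem
  refine ⟨d, w, x, hd0, funext fun i => by rw [hw i]; rfl, ?_⟩
  have h1 : d * (x ⬝ᵥ w) = d * 1 := by
    rw [mul_one]
    nth_rewrite 2 [← hx]
    rw [dotProduct, Finset.mul_sum]
    refine Finset.sum_congr rfl fun i _ => ?_
    rw [hw i]
    ring
  exact mul_left_cancel₀ hd0 h1

theorem STR_cast_smul (a : ℤ) (v : Fin n → ℤ) : castV (a • v) = (a : ℚ) • castV v := by
  ext i
  simp [castV]

theorem STR_cast_dot (v w : Fin n → ℤ) : castV v ⬝ᵥ castV w = ((v ⬝ᵥ w : ℤ) : ℚ) := by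
  simp [castV, dotProduct]

theorem STR_cast_ne {v : Fin n → ℤ} (hv : v ≠ 0) : castV v ≠ 0 := fun h => hv (castV_inj (h.trans castV_zero.symm))

/-- the image of an integral matrix of rank one -/
theorem STR_im (M : Matrix (Fin n) (Fin n) ℤ) (q : ℚ) (hq : q ≠ 0) (v f x y : Fin n → ℤ) (hx : x ⬝ᵥ v = 1) (hy : y ⬝ᵥ f = 1)
    (hM : ∀ z : Fin n → ℤ, castV (M *ᵥ z) = (q * (castV f ⬝ᵥ castV z)) • castV v) (z : Fin n → ℤ) :
    (∃ k : ℤ, k ≠ 0 ∧ ∃ y : Fin n → ℤ, k • z = M *ᵥ y) ↔ ∃ a : ℤ, z = a • v := by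
  constructor
  · rintro ⟨k, hk, y', hy'⟩
    have hk' : (k : ℚ) ≠ 0 := by exact_mod_cast hk
    have h1 := hM y'
    rw [← hy', STR_cast_smul] at h1
    have h2 : castV z = ((k : ℚ)⁻¹ * (q * (castV f ⬝ᵥ castV y'))) • castV v := by
      rw [mul_smul, ← h1, smul_smul, inv_mul_cancel₀ hk', one_smul]
    obtain ⟨r, hr⟩ : ∃ r, r = (k : ℚ)⁻¹ * (q * (castV f ⬝ᵥ castV y')) := ⟨_, rfl⟩
    rw [← hr] at h2
    have h3 : ((x ⬝ᵥ z : ℤ) : ℚ) = r := by
      rw [← STR_cast_dot, h2, dotProduct_smul, STR_cast_dot, hx, Int.cast_one, smul_eq_mul, mul_one]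
    refine ⟨x ⬝ᵥ z, castV_inj ?_⟩
    rw [STR_cast_smul, h3, h2]
  · rintro ⟨a, rfl⟩
    refine ⟨q.num, Rat.num_ne_zero.2 hq, (q.den * a : ℤ) • y, castV_inj ?_⟩
    rw [hM, STR_cast_smul, STR_cast_smul, STR_cast_smul, dotProduct_smul, STR_cast_dot, dotProduct_comm f y, hy, smul_smul]
    congr 1
    push_cast
    have h1 : (q.num : ℚ) = q * q.den := (Rat.mul_den_eq_num q).symm
    rw [h1, smul_eq_mul]
    ring

theorem STR : STR_stmt := by
  classical
  intro n u hu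
  obtain ⟨hM3, hM2, hrk⟩ := hu
  obtain ⟨M, hM⟩ : ∃ M, M = (u : Matrix (Fin n) (Fin n) ℤ) - 1 := ⟨_, rfl⟩
  obtain ⟨N, hN⟩ : ∃ N, N = qg u - 1 := ⟨_, rfl⟩
  rw [← hM] at hM3 hM2
  rw [← hN] at hrk
  have hNM : ∀ z : Fin n → ℤ, N *ᵥ castV z = castV (M *ᵥ z) := by
    intro z
    rw [hN, hM, sub_mulVec, one_mulVec, qg_mulVec_castV, sub_mulVec, one_mulVec]
    ext i
    simp [castV]
  have hNMr : ∀ z : Fin n → ℤ, castV z ᵥ* N = castV (z ᵥ* M) := by
    intro z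
    rw [hN, hM, vecMul_sub, vecMul_one, castV_vecMul_qg, vecMul_sub, vecMul_one]
    ext i
    simp [castV]
  obtain ⟨s, hs⟩ : ∃ s : Fin n, (M ^ 2) *ᵥ (Pi.single s 1 : Fin n → ℤ) ≠ 0 := by
    by_contra h
    push Not at h
    apply hM2
    ext i j
    have h1 := congrFun (h j) i
    rw [mulVec_single_one] at h1
    exact h1
  obtain ⟨d, v, x, hd, hdv, hx⟩ := STR_prim hs
  have hd' : (d : ℚ) ≠ 0 := by exact_mod_cast hd
  have hv0 : v ≠ 0 := by
    rintro rfl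
    rw [dotProduct_zero] at hx
    exact zero_ne_one hx
  have hcv0 := STR_cast_ne hv0
  obtain ⟨w₁, hw₁⟩ : ∃ w₁, w₁ = N *ᵥ castV (Pi.single s 1 : Fin n → ℤ) := ⟨_, rfl⟩
  have hNw : N *ᵥ w₁ = (d : ℚ) • castV v := by
    rw [hw₁, hNM, hNM, mulVec_mulVec, ← pow_two, hdv, STR_cast_smul]
  have hNv : N *ᵥ castV v = 0 := by
    have h1 : (d : ℚ) • (N *ᵥ castV v) = 0 := by
      rw [← mulVec_smul, ← STR_cast_smul, ← hdv, hNM, mulVec_mulVec, ← pow_succ', hM3, zero_mulVec, castV_zero]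
    exact (smul_eq_zero.1 h1).resolve_left hd'
  -- the columns of `N`
  have hli : LinearIndependent ℚ ![w₁, castV v] := by
    rw [LinearIndependent.pair_iff]
    intro a b hab
    have h1 : N *ᵥ (a • w₁ + b • castV v) = 0 := by rw [hab, mulVec_zero]
    rw [mulVec_add, mulVec_smul, mulVec_smul, hNw, hNv, smul_zero, add_zero, smul_smul] at h1
    have ha : a = 0 := by
      rcases smul_eq_zero.1 h1 with h2 | h2
      · exact (mul_eq_zero.1 h2).resolve_right hd'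
      · exact absurd h2 hcv0
    rw [ha, zero_smul, zero_add] at hab
    exact ⟨ha, (smul_eq_zero.1 hab).resolve_right hcv0⟩
  have hcol : ∀ j : Fin n, ∃ c : Fin 2 → ℚ, ∀ i, N i j = c 0 * w₁ i + c 1 * castV v i := by
    intro j
    have hle : Submodule.span ℚ (Set.range ![w₁, castV v]) ≤ LinearMap.range N.mulVecLin := by
      rw [Submodule.span_le]
      rintro _ ⟨i, rfl⟩
      fin_cases i
      · exact ⟨castV (Pi.single s 1 : Fin n → ℤ), hw₁.symm⟩
      · refine ⟨(d : ℚ)⁻¹ • w₁, ?_⟩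
        show N *ᵥ ((d : ℚ)⁻¹ • w₁) = castV v
        rw [mulVec_smul, hNw, smul_smul, inv_mul_cancel₀ hd', one_smul]
    have heq := Submodule.eq_of_le_of_finrank_eq hle (by
      rw [finrank_span_eq_card hli, Fintype.card_fin]
      exact hrk.symm)
    have hmem : N *ᵥ (Pi.single j 1) ∈ Submodule.span ℚ (Set.range ![w₁, castV v]) := by
      rw [heq]
      exact ⟨_, rfl⟩
    obtain ⟨c, hc⟩ := (Submodule.mem_span_range_iff_exists_fun ℚ).1 hmem
    refine ⟨c, fun i => ?_⟩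
    have h1 := congrFun hc i
    rw [Fin.sum_univ_two, mulVec_single_one] at h1
    exact h1.symm
  choose c hc using hcol
  obtain ⟨f₀, hf₀⟩ : ∃ f₀ : Fin n → ℚ, f₀ = fun j => c j 0 := ⟨_, rfl⟩
  obtain ⟨g, hg⟩ : ∃ g : Fin n → ℚ, g = fun j => c j 1 := ⟨_, rfl⟩
  have hND : N = vecMulVec w₁ f₀ + vecMulVec (castV v) g := by
    ext i j
    rw [Matrix.add_apply, vecMulVec_apply, vecMulVec_apply, hc j i, hf₀, hg]
    ring
  have hact : ∀ z : Fin n → ℚ, N *ᵥ z = (f₀ ⬝ᵥ z) • w₁ + (g ⬝ᵥ z) • castV v := by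
    intro z
    rw [hND, add_mulVec, vecMulVec_mulVec, vecMulVec_mulVec]
    ext i
    simp only [Pi.add_apply, Pi.smul_apply, smul_eq_mul, MulOpposite.smul_eq_mul_unop, MulOpposite.unop_op]
    ring
  have hsol : ∀ a b : ℚ, a • w₁ + b • castV v = 0 → a = 0 ∧ b = 0 := fun a b h => LinearIndependent.pair_iff.1 hli a b h
  obtain ⟨e1, e2⟩ : f₀ ⬝ᵥ castV v = 0 ∧ g ⬝ᵥ castV v = 0 := hsol _ _ (by rw [← hact, hNv])
  obtain ⟨e3, e4⟩ : f₀ ⬝ᵥ w₁ = 0 ∧ g ⬝ᵥ w₁ - d = 0 := hsol _ _ (by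
    rw [sub_smul, ← add_sub_assoc, ← hact, hNw, sub_self])
  have e5 : f₀ ≠ 0 := by
    rintro h0
    have h1 := hact (castV (Pi.single s 1 : Fin n → ℤ))
    rw [← hw₁, h0, zero_dotProduct, zero_smul, zero_add] at h1
    have h2 := (hsol 1 (-(g ⬝ᵥ castV (Pi.single s 1 : Fin n → ℤ))) (by rw [one_smul, neg_smul, ← h1, add_neg_cancel])).1
    exact one_ne_zero h2
  -- the primitive row
  obtain ⟨K, f', hK, hf'⟩ := clear_denom f₀
  have hK' : (K : ℚ) ≠ 0 := by exact_mod_cast hK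
  have hf'0 : f' ≠ 0 := by
    rintro rfl
    rw [castV_zero] at hf'
    exact e5 ((smul_eq_zero.1 hf'.symm).resolve_left hK')
  obtain ⟨b, f, y, hb, hbf, hy⟩ := STR_prim hf'0
  have hb' : (b : ℚ) ≠ 0 := by exact_mod_cast hb
  have hf0 : f ≠ 0 := by
    rintro rfl
    rw [dotProduct_zero] at hy
    exact zero_ne_one hy
  have hcf0 := STR_cast_ne hf0
  obtain ⟨β, hβ⟩ : ∃ β : ℚ, β = (K : ℚ)⁻¹ * b := ⟨_, rfl⟩
  have hβ0 : β ≠ 0 := by
    rw [hβ]
    exact mul_ne_zero (inv_ne_zero hK') hb'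
  have hf₀f : f₀ = β • castV f := by
    rw [hβ, mul_smul, ← STR_cast_smul, ← hbf, hf', smul_smul, inv_mul_cancel₀ hK', one_smul]
  obtain ⟨w, hw⟩ : ∃ w : Fin n → ℚ, w = β • w₁ := ⟨_, rfl⟩
  have hfv : castV f ⬝ᵥ castV v = 0 := by
    rw [hf₀f, smul_dotProduct, smul_eq_mul] at e1
    exact (mul_eq_zero.1 e1).resolve_left hβ0
  have hfw : castV f ⬝ᵥ w = 0 := by
    rw [hf₀f, smul_dotProduct, smul_eq_mul] at e3
    rw [hw, dotProduct_smul, (mul_eq_zero.1 e3).resolve_left hβ0, smul_zero]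
  have hgw : g ⬝ᵥ w ≠ 0 := by
    rw [hw, dotProduct_smul, sub_eq_zero.1 e4, smul_eq_mul]
    exact mul_ne_zero hβ0 hd'
  have hND' : N = vecMulVec w (castV f) + vecMulVec (castV v) g := by
    rw [hND, hf₀f, hw]
    ext i j
    simp only [Matrix.add_apply, vecMulVec_apply, Pi.smul_apply, smul_eq_mul]
    ring
  have hact' : ∀ z : Fin n → ℚ, N *ᵥ z = (castV f ⬝ᵥ z) • w + (g ⬝ᵥ z) • castV v := by
    intro z
    rw [hact, hf₀f, hw, smul_dotProduct, smul_smul, smul_eq_mul, mul_comm β]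
  have hactr : ∀ z : Fin n → ℚ, z ᵥ* N = (z ⬝ᵥ w) • castV f + (z ⬝ᵥ castV v) • g := by
    intro z
    rw [hND', vecMul_add, vecMul_vecMulVec, vecMul_vecMulVec]
  have hM2c : ∀ z : Fin n → ℤ, castV ((M ^ 2) *ᵥ z) = ((g ⬝ᵥ w) * (castV f ⬝ᵥ castV z)) • castV v := by
    intro z
    rw [pow_two, ← mulVec_mulVec, ← hNM, ← hNM, hact' (castV z), mulVec_add, mulVec_smul, mulVec_smul, hNv, smul_zero, add_zero, hact' w,
      hfw, zero_smul, zero_add, smul_smul, mul_comm]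
  have hM2r : ∀ z : Fin n → ℤ, castV ((M ^ 2)ᵀ *ᵥ z) = ((g ⬝ᵥ w) * (castV v ⬝ᵥ castV z)) • castV f := by
    intro z
    rw [mulVec_transpose, pow_two, ← vecMul_vecMul, ← hNMr, ← hNMr, hactr (castV z), add_vecMul, smul_vecMul, smul_vecMul, hactr (castV f), hfw,
      hfv, zero_smul, zero_smul, add_zero, smul_zero, zero_add, hactr g, e2, zero_smul, add_zero, smul_smul, mul_comm, dotProduct_comm (castV z)]
  refine ⟨v, f, x, y, w, g, hx, hy, ?_, hfw, e2, hgw, ?_, ?_, ?_, ?_, ?_⟩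
  · have h1 := hfv
    rw [STR_cast_dot] at h1
    exact_mod_cast h1
  · rw [add_assoc, ← hND', hN, add_sub_cancel]
  · intro z
    have h1 := STR_im (M ^ 2) (g ⬝ᵥ w) hgw v f x y hx hy hM2c z
    rw [hM] at h1
    exact h1
  · intro z
    have h1 := STR_im ((M ^ 2)ᵀ) (g ⬝ᵥ w) hgw f v y x hy hx hM2r z
    simp only [mulVec_transpose] at h1
    rw [hM] at h1
    exact h1
  · intro z
    have h1 : z ∈ FixV u ↔ N *ᵥ castV z = 0 := by
      rw [hNM]
      constructor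
      · intro h
        have h2 : (u : Matrix (Fin n) (Fin n) ℤ) *ᵥ z = z := h
        rw [hM, sub_mulVec, one_mulVec, h2, sub_self, castV_zero]
      · intro h
        have h2 : M *ᵥ z = 0 := castV_inj (h.trans castV_zero.symm)
        rw [hM, sub_mulVec, one_mulVec, sub_eq_zero] at h2
        exact h2
    rw [h1, hact']
    constructor
    · intro h
      have h2 : g ⬝ᵥ ((castV f ⬝ᵥ castV z) • w + (g ⬝ᵥ castV z) • castV v) = 0 := by rw [h, dotProduct_zero]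
      rw [dotProduct_add, dotProduct_smul, dotProduct_smul, e2, smul_zero, add_zero, smul_eq_mul] at h2
      have h3 := (mul_eq_zero.1 h2).resolve_right hgw
      rw [h3, zero_smul, zero_add] at h
      refine ⟨?_, (smul_eq_zero.1 h).resolve_right hcv0⟩
      rw [STR_cast_dot] at h3
      exact_mod_cast h3
    · rintro ⟨h2, h3⟩
      rw [STR_cast_dot, h2, Int.cast_zero, zero_smul, h3, zero_smul, add_zero]
  · intro z
    have h1 : z ∈ FixR u ↔ castV z ᵥ* N = 0 := by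
      rw [hNMr]
      constructor
      · intro h
        have h2 : z ᵥ* (u : Matrix (Fin n) (Fin n) ℤ) = z := h
        rw [hM, vecMul_sub, vecMul_one, h2, sub_self, castV_zero]
      · intro h
        have h2 : z ᵥ* M = 0 := castV_inj (h.trans castV_zero.symm)
        rw [hM, vecMul_sub, vecMul_one, sub_eq_zero] at h2
        exact h2
    rw [h1, hactr]
    constructor
    · intro h
      have h2 : ((castV z ⬝ᵥ w) • castV f + (castV z ⬝ᵥ castV v) • g) ⬝ᵥ w = 0 := by rw [h, zero_dotProduct]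
      rw [add_dotProduct, smul_dotProduct, smul_dotProduct, hfw, smul_zero, zero_add, smul_eq_mul] at h2
      have h3 := (mul_eq_zero.1 h2).resolve_right hgw
      rw [h3, zero_smul, add_zero] at h
      refine ⟨?_, (smul_eq_zero.1 h).resolve_right hcf0⟩
      rw [STR_cast_dot] at h3
      exact_mod_cast h3
    · rintro ⟨h2, h3⟩
      rw [STR_cast_dot, h2, Int.cast_zero, zero_smul, h3, zero_smul, add_zero]

end Pool.Agent.FGN
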